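import Mathlib

/-!
Polynomial hulls of compact subsets of the round sphere in `ℂ × ℝ`.
-/

namespace Pool.Agent.H891Z.Hull

open MvPolynomial Filter Topology

/-- membership in the polynomial hull -/
def InHull (E : Set (Fin 2 → ℂ)) (z : Fin 2 → ℂ) : Prop :=
  ∀ p : MvPolynomial (Fin 2) ℂ, ∀ c : ℝ, (∀ w ∈ E, ‖eval w p‖ ≤ c) → ‖eval z p‖ ≤ c

/-- points of the round sphere -/
def OnSph (w : Fin 2 → ℂ) : Prop := (w 1).im = 0 ∧ ‖w 0‖ ^ 2 + (w 1).re ^ 2 = 1

variable {E : Set (Fin 2 → ℂ)} {z : Fin 2 → ℂ}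

lemma im_zero (hE : ∀ w ∈ E, OnSph w) (hz : InHull E z) : (z 1).im = 0 := by
  by_contra hb
  set b := (z 1).im with hbdef
  have h1 := hz (X 1 + C (((b⁻¹ : ℝ) : ℂ) * Complex.I)) (Real.sqrt (1 + b⁻¹ ^ 2)) (by
    intro w hw
    obtain ⟨h1, h2⟩ := hE w hw
    apply Real.le_sqrt_of_sq_le
    rw [Complex.sq_norm, Complex.normSq_apply]
    simp only [map_add, eval_X, eval_C, Complex.add_re, Complex.mul_re, Complex.ofReal_re,
      Complex.I_re, mul_zero, Complex.ofReal_im, Complex.I_im, mul_one, sub_self, add_zero,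
      Complex.add_im, Complex.mul_im, h1, zero_add]
    nlinarith [sq_nonneg ‖w 0‖])
  have h2 := (Real.le_sqrt (norm_nonneg _) (by positivity)).1 h1
  rw [Complex.sq_norm, Complex.normSq_apply] at h2
  simp only [map_add, eval_X, eval_C, Complex.add_re, Complex.mul_re, Complex.ofReal_re,
    Complex.I_re, mul_zero, Complex.ofReal_im, Complex.I_im, mul_one, sub_self, add_zero,
    Complex.add_im, Complex.mul_im, ← hbdef] at h2
  have h3 : b * b⁻¹ = 1 := mul_inv_cancel₀ hb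
  nlinarith [mul_self_nonneg (z 1).re, mul_self_nonneg b]

lemma re_le (hE : ∀ w ∈ E, OnSph w) (hz : InHull E z) : |(z 1).re| ≤ 1 := by
  have h1 := hz (X 1) 1 (by
    intro w hw
    obtain ⟨h1, h2⟩ := hE w hw
    rw [eval_X]
    apply abs_le_one_iff_mul_self_le_one.2 ?_ |>.trans' (le_abs_self _)
    rw [← sq, Complex.sq_norm, Complex.normSq_apply, h1]
    nlinarith [sq_nonneg ‖w 0‖])
  rw [eval_X] at h1
  exact (Complex.abs_re_le_norm _).trans h1

/-- the hull is computed slice by slice -/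
lemma slice (hE : ∀ w ∈ E, OnSph w) (hc : IsCompact E) (hz : InHull E z) :
    InHull {w ∈ E | w 1 = z 1} z := by
  intro p c hp
  have him := im_zero hE hz
  have hre := re_le hE hz
  let q : MvPolynomial (Fin 2) ℂ := 1 - C (1 / 4) * (X 1 - C (z 1)) ^ 2
  have hq : ∀ w ∈ E, ‖eval w q‖ = 1 - ((w 1).re - (z 1).re) ^ 2 / 4 ∧
      ((w 1).re - (z 1).re) ^ 2 ≤ 4 := by
    intro w hw
    obtain ⟨h1, h2⟩ := hE w hw
    have h3 : ((w 1).re - (z 1).re) ^ 2 ≤ 4 := by
      have h4 : |(w 1).re| ≤ 1 := abs_le_one_iff_mul_self_le_one.2 (by nlinarith [sq_nonneg ‖w 0‖])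
      rw [abs_le] at h4 hre
      nlinarith
    refine ⟨?_, h3⟩
    have e : eval w q = ((1 - ((w 1).re - (z 1).re) ^ 2 / 4 : ℝ) : ℂ) := by
      have e1 : w 1 = ((w 1).re : ℂ) := Complex.ext rfl (by simpa using h1)
      have e2 : z 1 = ((z 1).re : ℂ) := Complex.ext rfl (by simpa using him)
      simp only [q, map_sub, map_one, map_mul, map_pow, eval_C, eval_X]
      push_cast
      rw [← e1, ← e2]
      ring
    rw [e, Complex.norm_real, Real.norm_of_nonneg (by linarith)]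
  have hcont : ∀ r : MvPolynomial (Fin 2) ℂ, Continuous fun w : Fin 2 → ℂ => ‖eval w r‖ :=
    fun r => (continuous_eval r).norm
  apply le_of_forall_pos_le_add
  intro ε hε
  by_cases hc0 : 0 ≤ c
  swap
  · -- the slice is empty, and so is the hull
    exfalso
    have hne : ∀ w ∈ E, ‖eval w q‖ < 1 := by
      intro w hw
      obtain ⟨h1, h2⟩ := hq w hw
      have h3 : (w 1).re ≠ (z 1).re := by
        intro h
        have h4 : w 1 = z 1 := Complex.ext h ((hE w hw).1.trans him.symm)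
        exact hc0 ((norm_nonneg _).trans (hp w ⟨hw, h4⟩))
      have := sq_pos_of_ne_zero (sub_ne_zero.2 h3)
      linarith
    have hz1 : ‖eval z q‖ = 1 := by simp [q]
    rcases E.eq_empty_or_nonempty with rfl | hE0
    · have := hz q 0 (by simp)
      linarith
    · obtain ⟨w, hw, hmax⟩ := hc.exists_isMaxOn hE0 (hcont q).continuousOn
      have := hz q _ (fun v hv => hmax hv)
      linarith [hne w hw]
  let K := E ∩ {w | c + ε ≤ ‖eval w p‖}
  have hK : IsCompact K := hc.inter_right (isClosed_le continuous_const (hcont p))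
  obtain ⟨ρ, hρ0, hρ1, hρ⟩ : ∃ ρ : ℝ, 0 ≤ ρ ∧ ρ < 1 ∧ ∀ w ∈ K, ‖eval w q‖ ≤ ρ := by
    rcases K.eq_empty_or_nonempty with h | hK0
    · exact ⟨0, le_rfl, one_pos, by simp [h]⟩
    · obtain ⟨w, hw, hmax⟩ := hK.exists_isMaxOn hK0 (hcont q).continuousOn
      refine ⟨_, norm_nonneg _, ?_, fun v hv => hmax hv⟩
      obtain ⟨h1, h2⟩ := hq w hw.1
      have h3 : (w 1).re ≠ (z 1).re := by
        intro h
        have h4 : w 1 = z 1 := Complex.ext h ((hE w hw.1).1.trans him.symm)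
        have h5 := hp w ⟨hw.1, h4⟩
        have h6 : c + ε ≤ ‖eval w p‖ := hw.2
        linarith
      have := sq_pos_of_ne_zero (sub_ne_zero.2 h3)
      linarith
  obtain ⟨B, hB⟩ := hc.exists_bound_of_continuousOn (continuous_eval p).continuousOn
  have hlim : Tendsto (fun n : ℕ => B * ρ ^ n) atTop (𝓝 (B * 0)) :=
    (tendsto_pow_atTop_nhds_zero_of_lt_one hρ0 hρ1).const_mul B
  rw [mul_zero] at hlim
  obtain ⟨n, hn⟩ := (hlim.eventually (gt_mem_nhds (by linarith : (0 : ℝ) < c + ε))).exists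
  have h1 := hz (p * q ^ n) (c + ε) (by
    intro w hw
    rw [map_mul, map_pow, norm_mul, norm_pow]
    by_cases hwK : w ∈ K
    · calc ‖eval w p‖ * ‖eval w q‖ ^ n ≤ B * ρ ^ n :=
          mul_le_mul (hB w hw) (pow_le_pow_left₀ (norm_nonneg _) (hρ w hwK) n) (by positivity)
            ((norm_nonneg _).trans (hB w hw))
        _ ≤ c + ε := hn.le
    · have h2 : ‖eval w p‖ ≤ c + ε := by
        by_contra h
        exact hwK ⟨hw, (not_le.1 h).le⟩
      have h3 : ‖eval w q‖ ^ n ≤ 1 := by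
        apply pow_le_one₀ (norm_nonneg _)
        rw [(hq w hw).1]
        nlinarith [sq_nonneg ((w 1).re - (z 1).re)]
      calc ‖eval w p‖ * ‖eval w q‖ ^ n ≤ (c + ε) * 1 :=
          mul_le_mul h2 h3 (by positivity) (by linarith)
        _ = c + ε := mul_one _)
  have hz1 : eval z q = 1 := by simp [q]
  rwa [map_mul, map_pow, hz1, one_pow, mul_one] at h1

/-- the hull inequality for `N / (a - u)` with a pole outside the disc -/
lemma hull_rat {A : Set (Fin 2 → ℂ)} (hz : InHull A z) {r : ℝ} (hr : ∀ w ∈ A, ‖w 0‖ ≤ r)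
    (hzr : ‖z 0‖ ≤ r) {a : ℂ} (ha : r < ‖a‖) (N : MvPolynomial (Fin 2) ℂ) {c : ℝ} (hc : 0 ≤ c)
    (h : ∀ w ∈ A, ‖eval w N‖ ≤ c * ‖a - w 0‖) : ‖eval z N‖ ≤ c * ‖a - z 0‖ := by
  have hr0 : 0 ≤ r := (norm_nonneg _).trans hzr
  have ha0 : 0 < ‖a‖ := lt_of_le_of_lt hr0 ha
  have ha1 : a ≠ 0 := norm_pos_iff.1 ha0
  set ρ := r / ‖a‖ with hρ
  have hρ0 : 0 ≤ ρ := by positivity
  have hρ1 : ρ < 1 := (div_lt_one ha0).2 ha
  have key : ∀ n : ℕ, ‖eval z N‖ * (1 - ρ ^ n) ≤ c * (1 + ρ ^ n) * ‖a - z 0‖ := by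
    intro n
    let G : MvPolynomial (Fin 2) ℂ := C a⁻¹ * ∑ k ∈ Finset.range n, (C a⁻¹ * X 0) ^ k
    have hG : ∀ w : Fin 2 → ℂ, eval w G * (a - w 0) = 1 - (a⁻¹ * w 0) ^ n := by
      intro w
      simp only [G, map_mul, map_sum, map_pow, eval_C, eval_X]
      rw [← mul_neg_geom_sum]
      field_simp
    have hn : ∀ w : Fin 2 → ℂ, ‖w 0‖ ≤ r → ‖(a⁻¹ * w 0) ^ n‖ ≤ ρ ^ n := by
      intro w hw
      rw [norm_pow]
      apply pow_le_pow_left₀ (norm_nonneg _)
      rw [norm_mul, norm_inv, hρ, div_eq_inv_mul]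
      exact mul_le_mul_of_nonneg_left hw (by positivity)
    have h1 := hz (N * G) (c * (1 + ρ ^ n)) (by
      intro w hw
      rw [map_mul, norm_mul]
      calc ‖eval w N‖ * ‖eval w G‖ ≤ c * ‖a - w 0‖ * ‖eval w G‖ :=
          mul_le_mul_of_nonneg_right (h w hw) (norm_nonneg _)
        _ = c * ‖eval w G * (a - w 0)‖ := by rw [norm_mul]; ring
        _ ≤ c * (1 + ρ ^ n) := by
          apply mul_le_mul_of_nonneg_left _ hc
          rw [hG]
          exact (norm_sub_le _ _).trans (by rw [norm_one]; linarith [hn w (hr w hw)]))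
    rw [map_mul, norm_mul] at h1
    have h2 : 1 - ρ ^ n ≤ ‖eval z G‖ * ‖a - z 0‖ := by
      rw [← norm_mul, hG]
      have := norm_sub_norm_le (1 : ℂ) ((a⁻¹ * z 0) ^ n)
      rw [norm_one] at this
      linarith [hn z hzr]
    calc ‖eval z N‖ * (1 - ρ ^ n) ≤ ‖eval z N‖ * (‖eval z G‖ * ‖a - z 0‖) :=
        mul_le_mul_of_nonneg_left h2 (norm_nonneg _)
      _ = ‖eval z N‖ * ‖eval z G‖ * ‖a - z 0‖ := by ring
      _ ≤ _ := mul_le_mul_of_nonneg_right h1 (norm_nonneg _)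
  have hlim := tendsto_pow_atTop_nhds_zero_of_lt_one hρ0 hρ1
  have l1 : Tendsto (fun n : ℕ => ‖eval z N‖ * (1 - ρ ^ n)) atTop (𝓝 (‖eval z N‖ * (1 - 0))) :=
    (hlim.const_sub 1).const_mul _
  have l2 : Tendsto (fun n : ℕ => c * (1 + ρ ^ n) * ‖a - z 0‖) atTop
      (𝓝 (c * (1 + 0) * ‖a - z 0‖)) := ((hlim.const_add 1).const_mul _).mul_const _
  simpa using le_of_tendsto_of_tendsto' l1 l2 key

lemma norm_id (a u : ℂ) (s : ℝ) : ‖(a - u) + s * (a + u)‖ ^ 2 =
    ‖a - u‖ ^ 2 + 2 * s * (‖a‖ ^ 2 - ‖u‖ ^ 2) + s ^ 2 * ‖a + u‖ ^ 2 := by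
  simp only [Complex.sq_norm, Complex.normSq_apply, Complex.add_re, Complex.sub_re,
    Complex.mul_re, Complex.ofReal_re, Complex.ofReal_im, Complex.add_im, Complex.sub_im,
    Complex.mul_im]
  ring

/-- a subset of a circle missing an arc has no interior point of the disc in its hull -/
lemma not_inside {A : Set (Fin 2 → ℂ)} (hz : InHull A z) {r η : ℝ} (hη : 0 < η) {u₀ : ℂ}
    (hu₀ : ‖u₀‖ = r) (hr : ∀ w ∈ A, ‖w 0‖ = r ∧ η ≤ ‖u₀ - w 0‖) (hzr : ‖z 0‖ < r) : False := by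
  have hr0 : 0 < r := lt_of_le_of_lt (norm_nonneg _) hzr
  set m := r ^ 2 - ‖z 0‖ ^ 2 with hm
  have hm0 : 0 < m := by nlinarith [norm_nonneg (z 0)]
  obtain ⟨s, hs0, hs1, hs2, hs3⟩ : ∃ s : ℝ, 0 < s ∧ s ≤ 1 ∧ s * r ≤ η / 2 ∧
      s * (540 * r ^ 4) ≤ m * η ^ 2 := by
    refine ⟨min 1 (min (η / 2 / r) (m * η ^ 2 / (540 * r ^ 4))), by positivity, min_le_left _ _,
      ?_, ?_⟩
    · rw [← le_div_iff₀ hr0]
      exact (min_le_right _ _).trans (min_le_left _ _)
    · rw [← le_div_iff₀ (by positivity)]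
      exact (min_le_right _ _).trans (min_le_right _ _)
  set a : ℂ := ((1 + s : ℝ) : ℂ) * u₀ with ha
  have hna : ‖a‖ = (1 + s) * r := by
    rw [ha, norm_mul, Complex.norm_real, Real.norm_of_nonneg (by linarith), hu₀]
  set κ := 60 * s ^ 2 * r ^ 2 / η ^ 2 with hκ
  have hκ0 : 0 ≤ κ := by positivity
  have h1 := hull_rat hz (fun w hw => (hr w hw).1.le) hzr.le (a := a) (by rw [hna]; nlinarith)
    ((C a - X 0) + C (s : ℂ) * (C a + X 0)) (c := Real.sqrt (1 + κ)) (Real.sqrt_nonneg _) (by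
      intro w hw
      obtain ⟨h1, h2⟩ := hr w hw
      simp only [map_add, map_sub, map_mul, eval_C, eval_X]
      apply le_of_sq_le_sq _ (by positivity)
      rw [norm_id, mul_pow, Real.sq_sqrt (by linarith), hna, h1]
      have h3 : η / 2 ≤ ‖a - w 0‖ := by
        have e : u₀ - w 0 = (a - w 0) - (s : ℂ) * u₀ := by rw [ha]; push_cast; ring
        have := norm_sub_le (a - w 0) ((s : ℂ) * u₀)
        rw [← e, norm_mul, Complex.norm_real, Real.norm_of_nonneg hs0.le, hu₀] at this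
        linarith
      have h4 : ‖a + w 0‖ ≤ 3 * r := by
        have := norm_add_le a (w 0)
        rw [hna, h1] at this
        nlinarith
      have h5 : ‖a + w 0‖ ^ 2 ≤ (3 * r) ^ 2 := pow_le_pow_left₀ (norm_nonneg _) h4 2
      have h6 : (η / 2) ^ 2 ≤ ‖a - w 0‖ ^ 2 := pow_le_pow_left₀ (by positivity) h3 2
      have h7 : κ * (η / 2) ^ 2 = 15 * s ^ 2 * r ^ 2 := by
        rw [hκ]; field_simp; ring
      have h8 : κ * (η / 2) ^ 2 ≤ κ * ‖a - w 0‖ ^ 2 := mul_le_mul_of_nonneg_left h6 hκ0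
      have h9 : s ^ 2 * ‖a + w 0‖ ^ 2 ≤ s ^ 2 * (3 * r) ^ 2 :=
        mul_le_mul_of_nonneg_left h5 (by positivity)
      have h10 : s ^ 3 * r ^ 2 ≤ s ^ 2 * r ^ 2 :=
        mul_le_mul_of_nonneg_right (by nlinarith [sq_nonneg s]) (by positivity)
      nlinarith)
  simp only [map_add, map_sub, map_mul, eval_C, eval_X] at h1
  have h2 := pow_le_pow_left₀ (norm_nonneg _) h1 2
  rw [norm_id, mul_pow, Real.sq_sqrt (by linarith), hna] at h2
  have h4 : ‖a - z 0‖ ≤ 3 * r := by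
    have := norm_sub_le a (z 0)
    rw [hna] at this
    nlinarith
  have h5 : ‖a - z 0‖ ^ 2 ≤ (3 * r) ^ 2 := pow_le_pow_left₀ (norm_nonneg _) h4 2
  have h6 : κ * ‖a - z 0‖ ^ 2 ≤ κ * (3 * r) ^ 2 := mul_le_mul_of_nonneg_left h5 hκ0
  have h7 : κ * (3 * r) ^ 2 * η ^ 2 = s * (s * (540 * r ^ 4)) := by
    rw [hκ]; field_simp; ring
  have h8 : κ * (3 * r) ^ 2 ≤ s * m := by
    apply le_of_mul_le_mul_right _ (by positivity : 0 < η ^ 2)
    rw [h7, mul_assoc]
    exact mul_le_mul_of_nonneg_left hs3 hs0.le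
  have h9 : m ≤ ((1 + s) * r) ^ 2 - ‖z 0‖ ^ 2 := by nlinarith [mul_pos hs0 hr0]
  have h10 : 0 ≤ s ^ 2 * ‖a + z 0‖ ^ 2 := by positivity
  nlinarith [mul_pos hs0 hm0, mul_le_mul_of_nonneg_left h9 hs0.le]

theorem disc (hE : ∀ w ∈ E, OnSph w) (hc : IsCompact E) (hz : InHull E z) (hzE : z ∉ E) :
    ∃ g : ℂ → (Fin 2 → ℂ), DifferentiableOn ℂ g (Metric.ball (0 : ℂ) 1) ∧
      (∀ ζ ∈ Metric.ball (0 : ℂ) 1, InHull E (g ζ) ∧ g ζ ∉ E) ∧
      ¬ ∃ c, ∀ ζ ∈ Metric.ball (0 : ℂ) 1, g ζ = c := by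
  have him := im_zero hE hz
  have hre := re_le hE hz
  have hs := slice hE hc hz
  set A := {w ∈ E | w 1 = z 1} with hA
  have hAc : IsCompact A :=
    hc.inter_right (isClosed_eq (continuous_apply 1) continuous_const)
  set r := Real.sqrt (1 - (z 1).re ^ 2) with hr
  have hr0 : 0 ≤ r := Real.sqrt_nonneg _
  have hAr : ∀ w ∈ A, ‖w 0‖ = r := by
    rintro w ⟨hw, hw1⟩
    have := (hE w hw).2
    rw [hw1] at this
    rw [hr, ← Real.sqrt_sq (norm_nonneg (w 0))]
    congr 1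
    linarith
  have hA0 : A.Nonempty := by
    by_contra h
    rw [Set.not_nonempty_iff_eq_empty] at h
    have := hs 1 0 (by simp [h])
    simp at this
    linarith
  have hzr : ‖z 0‖ ≤ r := by
    have := hs (X 0) r (fun w hw => by rw [eval_X, hAr w hw])
    rwa [eval_X] at this
  have hext : ∀ w ∈ A, w 0 ≠ z 0 := by
    rintro w ⟨hw, hw1⟩ h
    apply hzE
    have : w = z := by
      ext i
      fin_cases i
      · exact h
      · exact hw1
    exact this ▸ hw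
  have hlt : ‖z 0‖ < r := by
    refine lt_of_le_of_ne hzr fun heq => ?_
    obtain ⟨w, hw, hmax⟩ := hAc.exists_isMaxOn hA0
      (continuous_eval (X 0 + C (z 0) : MvPolynomial (Fin 2) ℂ)).norm.continuousOn
    have h1 := hs (X 0 + C (z 0)) _ (fun v hv => hmax hv)
    simp only [map_add, eval_X, eval_C] at h1
    have h2 := parallelogram_law_with_norm ℂ (w 0) (z 0)
    have h3 : ‖z 0 + z 0‖ = 2 * r := by rw [← two_mul, norm_mul, heq]; simp
    have h4 : 0 < ‖w 0 - z 0‖ := norm_pos_iff.2 (sub_ne_zero.2 (hext w hw))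
    rw [h3] at h1
    rw [hAr w hw, heq] at h2
    nlinarith
  have hr1 : 0 < r := lt_of_le_of_lt (norm_nonneg _) hlt
  have hfull : ∀ u : ℂ, ‖u‖ = r → ![u, z 1] ∈ E := by
    intro u hu
    by_contra hn
    obtain ⟨w, hw, hmin⟩ := hAc.exists_isMinOn hA0
      (f := fun w : Fin 2 → ℂ => ‖u - w 0‖) (by fun_prop)
    have h1 : 0 < ‖u - w 0‖ := by
      rw [norm_pos_iff, sub_ne_zero]
      intro h
      apply hn
      have : ![u, z 1] = w := by
        ext i
        fin_cases i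
        · exact h
        · exact hw.2.symm
      exact this ▸ hw.1
    exact not_inside hs h1 hu (fun v hv => ⟨hAr v hv, hmin hv⟩) hlt
  have hdiff : Differentiable ℂ (fun ζ : ℂ => (![(r : ℂ) * ζ, z 1] : Fin 2 → ℂ)) := by
    rw [differentiable_pi]
    intro i
    fin_cases i
    · simp only [Fin.zero_eta, Matrix.cons_val_zero]
      fun_prop
    · simp
  refine ⟨fun ζ => ![r * ζ, z 1], hdiff.differentiableOn, fun ζ hζ => ⟨?_, ?_⟩, ?_⟩
  · intro p c hp
    have hd : Differentiable ℂ (fun ζ : ℂ => eval (![(r : ℂ) * ζ, z 1] : Fin 2 → ℂ) p) := by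
      exact Differentiable.comp (g := fun w : Fin 2 → ℂ => eval w p)
        (fun w => (AnalyticOnNhd.eval_mvPolynomial p w trivial).differentiableAt) hdiff
    refine Complex.norm_le_of_forall_mem_frontier_norm_le Metric.isBounded_ball
      hd.diffContOnCl ?_ (subset_closure hζ)
    intro ξ hξ
    rw [frontier_ball _ one_ne_zero, mem_sphere_zero_iff_norm] at hξ
    apply hp
    apply hfull
    rw [norm_mul, hξ, mul_one, Complex.norm_real, Real.norm_of_nonneg hr0]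
  · intro h
    have h1 := hAr _ ⟨h, rfl⟩
    rw [mem_ball_zero_iff] at hζ
    simp only [Matrix.cons_val_zero, norm_mul, Complex.norm_real, Real.norm_of_nonneg hr0] at h1
    nlinarith
  · rintro ⟨c, hc⟩
    have h1 := congrFun (hc 0 (by simp)) 0
    have h2 := congrFun (hc (1 / 2) (by rw [mem_ball_zero_iff]; norm_num)) 0
    simp only [Matrix.cons_val_zero] at h1 h2
    rw [← h1] at h2
    have : (r : ℂ) = 0 := by linear_combination 2 * h2
    exact hr1.ne' (by exact_mod_cast this)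

end Pool.Agent.H891Z.Hull
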