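import Mathlib
import Pool.Agent.H891Z.Hull.Slice

namespace Pool.Agent.H891Z.Hull

open scoped Manifold

/-- the embedding of `ℝ³` as `ℂ × ℝ` -/
noncomputable def L : EuclideanSpace ℝ (Fin 3) →L[ℝ] (Fin 2 → ℂ) :=
  LinearMap.toContinuousLinearMap
    { toFun := fun x => ![(x 0 : ℂ) + x 1 * Complex.I, (x 2 : ℂ)]
      map_add' := by
        intro x y
        ext i
        fin_cases i <;> simp
        ring
      map_smul' := by
        intro c x
        ext i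
        fin_cases i <;> simp
        ring }

lemma L_apply (x : EuclideanSpace ℝ (Fin 3)) :
    L x = ![(x 0 : ℂ) + x 1 * Complex.I, (x 2 : ℂ)] := rfl

lemma L_injective : Function.Injective L := by
  intro x y h
  rw [L_apply, L_apply] at h
  have h0 := congrFun h 0
  have h1 := congrFun h 1
  simp only [Matrix.cons_val_zero, Matrix.cons_val_one] at h0 h1
  have a0 := congrArg Complex.re h0
  have a1 := congrArg Complex.im h0
  have a2 := congrArg Complex.re h1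
  simp at a0 a1 a2
  ext i
  fin_cases i
  · exact a0
  · exact a1
  · exact a2

theorem main :
    ¬ (∀ (M : Type) [TopologicalSpace M] [ChartedSpace (EuclideanSpace ℝ (Fin 2)) M]
      [IsManifold (𝓡 2) ((⊤ : ℕ∞) : WithTop ℕ∞) M] [CompactSpace M] [Nonempty M]
      (f : M → (Fin 2 → ℂ)),
      ContMDiff (𝓡 2) 𝓘(ℝ, Fin 2 → ℂ) ((⊤ : ℕ∞) : WithTop ℕ∞) f →
      Function.Injective f →
      (∀ x : M, Function.Injective (mfderiv (𝓡 2) 𝓘(ℝ, Fin 2 → ℂ) f x)) →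
      ∃ E : Set (Fin 2 → ℂ), E ⊆ Set.range f ∧ IsCompact E ∧
        (∃ z : Fin 2 → ℂ,
          (∀ p : MvPolynomial (Fin 2) ℂ, ∀ c : ℝ,
            (∀ w ∈ E, ‖MvPolynomial.eval w p‖ ≤ c) → ‖MvPolynomial.eval z p‖ ≤ c) ∧
          z ∉ E) ∧
        ∀ g : ℂ → (Fin 2 → ℂ), DifferentiableOn ℂ g (Metric.ball (0 : ℂ) 1) →
          (∀ ζ ∈ Metric.ball (0 : ℂ) 1,
            (∀ p : MvPolynomial (Fin 2) ℂ, ∀ c : ℝ,
              (∀ w ∈ E, ‖MvPolynomial.eval w p‖ ≤ c) → ‖MvPolynomial.eval (g ζ) p‖ ≤ c) ∧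
            g ζ ∉ E) →
          ∃ c : Fin 2 → ℂ, ∀ ζ ∈ Metric.ball (0 : ℂ) 1, g ζ = c) := by
  intro H
  have : Fact (Module.finrank ℝ (EuclideanSpace ℝ (Fin 3)) = 2 + 1) := ⟨by simp⟩
  have : Nonempty (Metric.sphere (0 : EuclideanSpace ℝ (Fin 3)) 1) :=
    ⟨⟨EuclideanSpace.single 0 1, by simp⟩⟩
  have hcoe : ContMDiff (𝓡 2) 𝓘(ℝ, EuclideanSpace ℝ (Fin 3)) ((⊤ : ℕ∞) : WithTop ℕ∞)
      ((↑) : Metric.sphere (0 : EuclideanSpace ℝ (Fin 3)) 1 → EuclideanSpace ℝ (Fin 3)) :=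
    contMDiff_coe_sphere
  obtain ⟨E, hE, hc, ⟨z, hz, hzE⟩, hg⟩ := H (Metric.sphere (0 : EuclideanSpace ℝ (Fin 3)) 1)
    (L ∘ (↑)) (L.contMDiff.comp hcoe) (L_injective.comp Subtype.val_injective) (by
      intro x
      rw [mfderiv_comp x L.mdifferentiableAt (hcoe.mdifferentiableAt (by simp)), L.mfderiv_eq]
      exact L_injective.comp (mfderiv_coe_sphere_injective x))
  obtain ⟨g, h1, h2, h3⟩ := disc (E := E) (z := z) (by
    intro w hw
    obtain ⟨x, rfl⟩ := hE hw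
    have hx : ‖(x : EuclideanSpace ℝ (Fin 3))‖ = 1 := mem_sphere_zero_iff_norm.1 x.2
    have hx2 := congrArg (· ^ 2) hx
    simp only [EuclideanSpace.norm_sq_eq, Fin.sum_univ_three, Real.norm_eq_abs, sq_abs] at hx2
    refine ⟨by simp [L_apply], ?_⟩
    simp only [Function.comp_apply, L_apply, Matrix.cons_val_zero, Matrix.cons_val_one,
      Complex.ofReal_re, Complex.sq_norm, Complex.normSq_add_mul_I]
    linarith) hc hz hzE
  exact h3 (hg g h1 h2)

end Pool.Agent.H891Z.Hull
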